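import Mathlib

namespace Pool.Agent.Results.MP_4ee39a_co.Disproof

/-- No edge contains another. -/
def IsClutter {X : Type} (E : Set (Finset X)) : Prop :=
  ∀ e ∈ E, ∀ f ∈ E, e ⊆ f → e = f

def Uniform {X : Type} (d : ℕ) (E : Set (Finset X)) : Prop := ∀ e ∈ E, e.card = d

/-- `W` meets every edge. -/
def IsCover {X : Type} (E : Set (Finset X)) (W : Finset X) : Prop := ∀ e ∈ E, ∃ x ∈ W, x ∈ e

def IsMinCover {X : Type} (E : Set (Finset X)) (W : Finset X) : Prop :=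
  IsCover E W ∧ ∀ W' : Finset X, W' ⊂ W → ¬ IsCover E W'

/-- Every minimal vertex cover has exactly `|X| / d` elements. -/
def VeryWellCovered {X : Type} [Fintype X] (d : ℕ) (E : Set (Finset X)) : Prop :=
  ∀ W, IsMinCover E W → d * W.card = Fintype.card X

/-- The clutter of `s`-jets, on the vertices `x_j = (x, j)` with `0 ≤ j ≤ s`. -/
def jets {X : Type} [DecidableEq X] (s : ℕ) (E : Set (Finset X)) :
    Set (Finset (X × Fin (s + 1))) :=
  {F | ∃ e ∈ E, ∃ i : X → Fin (s + 1), ∑ x ∈ e, (i x).val ≤ s ∧ F = e.image (fun x => (x, i x))}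

def C : Set (Finset (Fin 6)) := {{0, 1, 2}, {0, 1, 5}, {0, 2, 4}, {1, 2, 3}}

lemma memC (e : Finset (Fin 6)) :
    e ∈ C ↔ e = {0, 1, 2} ∨ e = {0, 1, 5} ∨ e = {0, 2, 4} ∨ e = {1, 2, 3} := by
  simp [C]

def cov (W : Finset (Fin 6)) : Prop :=
  (0 ∈ W ∨ 1 ∈ W ∨ 2 ∈ W) ∧ (0 ∈ W ∨ 1 ∈ W ∨ 5 ∈ W) ∧ (0 ∈ W ∨ 2 ∈ W ∨ 4 ∈ W) ∧
    (1 ∈ W ∨ 2 ∈ W ∨ 3 ∈ W)

instance : DecidablePred cov := fun W => by unfold cov; infer_instance

lemma cover_iff (W : Finset (Fin 6)) : IsCover C W ↔ cov W := by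
  unfold IsCover cov
  simp only [memC, forall_eq_or_imp, forall_eq]
  simp only [Finset.mem_insert, Finset.mem_singleton]
  constructor
  · rintro ⟨⟨a, ha, h1⟩, ⟨b, hb, h2⟩, ⟨c, hc, h3⟩, ⟨d, hd, h4⟩⟩
    refine ⟨?_, ?_, ?_, ?_⟩
    · rcases h1 with rfl | rfl | rfl <;> simp [ha]
    · rcases h2 with rfl | rfl | rfl <;> simp [hb]
    · rcases h3 with rfl | rfl | rfl <;> simp [hc]
    · rcases h4 with rfl | rfl | rfl <;> simp [hd]
  · rintro ⟨h1, h2, h3, h4⟩
    refine ⟨?_, ?_, ?_, ?_⟩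
    · rcases h1 with h | h | h <;> exact ⟨_, h, by simp⟩
    · rcases h2 with h | h | h <;> exact ⟨_, h, by simp⟩
    · rcases h3 with h | h | h <;> exact ⟨_, h, by simp⟩
    · rcases h4 with h | h | h <;> exact ⟨_, h, by simp⟩

lemma key : ∀ W : Finset (Fin 6), cov W → (∀ x ∈ W, ¬ cov (W.erase x)) → W.card = 2 := by
  decide +kernel

lemma vwc : VeryWellCovered 3 C := by
  intro W ⟨h1, h2⟩
  have := key W ((cover_iff W).1 h1) (fun x hx h =>
    h2 _ (Finset.erase_ssubset hx) ((cover_iff _).2 h))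
  simp [this]

def W0 : Finset (Fin 6 × Fin 2) := {(0, 0), (1, 0), (2, 0)}

lemma two (i : Fin 6 → Fin 2) (a b c : Fin 6) (h : (i a).val + ((i b).val + (i c).val) ≤ 1) :
    (i a = 0 ∨ i b = 0) ∧ (i a = 0 ∨ i c = 0) := by
  simp only [Fin.ext_iff, Fin.val_zero]
  omega

lemma W0cover : IsCover (jets 1 C) W0 := by
  rintro F ⟨e, he, i, hi, rfl⟩
  have hm : ∀ x ∈ e, (x = 0 ∨ x = 1 ∨ x = 2) → i x = 0 →
      ∃ y ∈ W0, y ∈ e.image (fun x => (x, i x)) := by
    intro x hx hx3 h0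
    refine ⟨(x, i x), ?_, Finset.mem_image_of_mem _ hx⟩
    rw [h0]
    rcases hx3 with rfl | rfl | rfl <;> simp [W0]
  rcases (memC e).1 he with rfl | rfl | rfl | rfl
  all_goals
    rw [Finset.sum_insert (by decide), Finset.sum_insert (by decide), Finset.sum_singleton] at hi
    rcases (two i _ _ _ hi).1 with h | h
    · exact hm _ (by simp) (by simp) h
    · exact hm _ (by simp) (by simp) h

lemma W0min : IsMinCover (jets 1 C) W0 := by
  refine ⟨W0cover, ?_⟩
  intro W' hW' hc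
  obtain ⟨y, hy, hy'⟩ := Finset.exists_of_ssubset hW'
  have hsub := hW'.subset
  have aux : ∀ (e : Finset (Fin 6)) (i : Fin 6 → Fin 2), e ∈ C → ∑ x ∈ e, (i x).val ≤ 1 →
      (∀ z ∈ W0, z ∈ e.image (fun x => (x, i x)) → z = y) → False := by
    intro e i he hi hz
    obtain ⟨z, hz1, hz2⟩ := hc _ ⟨e, he, i, hi, rfl⟩
    exact hy' (hz z (hsub hz1) hz2 ▸ hz1)
  simp only [W0, Finset.mem_insert, Finset.mem_singleton] at hy
  rcases hy with rfl | rfl | rfl
  · exact aux {0, 1, 5} (fun x => if x = 1 then 1 else 0) (by simp [memC]) (by decide) (by decide)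
  · exact aux {0, 1, 5} (fun x => if x = 0 then 1 else 0) (by simp [memC]) (by decide) (by decide)
  · exact aux {0, 2, 4} (fun x => if x = 0 then 1 else 0) (by simp [memC]) (by decide) (by decide)

theorem result : ¬ ∀ (X : Type) [Fintype X] [DecidableEq X] (d : ℕ) (E : Set (Finset X)),
    1 ≤ d → IsClutter E → Uniform d E → (∀ x, ∃ e ∈ E, x ∈ e) → VeryWellCovered d E →
    ∀ s : ℕ, VeryWellCovered d (jets s E) := by
  intro h
  have h1 : IsClutter C := by
    intro e he f hf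
    rcases (memC e).1 he with rfl | rfl | rfl | rfl <;>
      rcases (memC f).1 hf with rfl | rfl | rfl | rfl <;> decide
  have h2 : Uniform 3 C := by
    intro e he
    rcases (memC e).1 he with rfl | rfl | rfl | rfl <;> decide
  have h3 : ∀ x, ∃ e ∈ C, x ∈ e := by
    intro x
    simp only [memC, exists_eq_or_imp, exists_eq_left]
    revert x
    decide
  have := h (Fin 6) 3 C (by norm_num) h1 h2 h3 vwc 1 W0 W0min
  revert this
  decide

end Pool.Agent.Results.MP_4ee39a_co.Disproof
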